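import Mathlib

/-!
Balanced ballot systems.
-/

namespace Q137.Ballots

/-- A ballot for `k` offices, where office `j` has the candidate set `Fin (m j)` and the positions
`Fin (m j)`: for every office a bijection from the positions onto the candidates. -/
abbrev Ballot {k : ℕ} (m : Fin k → ℕ) : Type := ∀ j : Fin k, Fin (m j) ≃ Fin (m j)

/-- `S` is a finite nonempty set of (distinct) ballots with positive integer multiplicities `w`,
such that for every office `j` and every position `p` the weighted number of ballots of `S` that
have candidate `c` in position `p` is the same for all candidates `c` of office `j`. -/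
structure IsBalanced {k : ℕ} (m : Fin k → ℕ) (S : Finset (Ballot m)) (w : Ballot m → ℕ) :
    Prop where
  nonempty : S.Nonempty
  pos : ∀ b ∈ S, 0 < w b
  balanced : ∀ (j : Fin k) (p c c' : Fin (m j)),
    ∑ b ∈ S.filter (fun b => b j p = c), w b = ∑ b ∈ S.filter (fun b => b j p = c'), w b

/-- The least number of distinct ballots in a balanced ballot system. -/
noncomputable def B {k : ℕ} (m : Fin k → ℕ) : ℕ :=
  sInf {s : ℕ | ∃ (S : Finset (Ballot m)) (w : Ballot m → ℕ), IsBalanced m S w ∧ S.card = s}

end Q137.Ballots
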