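import Mathlib
import Pool.Agent.Q137.Ballots.Defs

/-!
Ballot systems made of cyclic shifts.
-/

namespace Q137.Ballots

open Finset

/-- The ballot that shifts office `j` by `g j`. -/
def shift {k : ℕ} (m : Fin k → ℕ) (hm : ∀ j, m j ≠ 0) (g : ∀ j, Fin (m j)) : Ballot m :=
  fun j => haveI : NeZero (m j) := ⟨hm j⟩; Equiv.addLeft (g j)

theorem shift_apply {k : ℕ} (m : Fin k → ℕ) (hm : ∀ j, m j ≠ 0) (g : ∀ j, Fin (m j))
    (j : Fin k) (p : Fin (m j)) :
    shift m hm g j p = (haveI : NeZero (m j) := ⟨hm j⟩; g j + p) := rfl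

theorem shift_injective {k : ℕ} (m : Fin k → ℕ) (hm : ∀ j, m j ≠ 0) :
    Function.Injective (shift m hm) := by
  intro g g' h
  funext j
  haveI : NeZero (m j) := ⟨hm j⟩
  have h1 := congrArg (fun b : Ballot m => b j 0) h
  simpa [shift_apply] using h1

/-- Weighted triples of shifts whose class sums are equal give a balanced ballot system. -/
theorem exists_balanced {k : ℕ} (m : Fin k → ℕ) (hm : ∀ j, m j ≠ 0) (s : ℕ) (hs : 0 < s)
    (w : Fin s → ℕ) (hw : ∀ t, 0 < w t) (g : Fin s → ∀ j, Fin (m j))
    (hg : Function.Injective g)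
    (hbal : ∀ (j : Fin k) (c c' : Fin (m j)),
      ∑ t ∈ univ.filter (fun t => g t j = c), w t =
        ∑ t ∈ univ.filter (fun t => g t j = c'), w t) :
    ∃ (S : Finset (Ballot m)) (w : Ballot m → ℕ), IsBalanced m S w ∧ S.card = s := by
  classical
  have hinj : Function.Injective (fun t => shift m hm (g t)) := (shift_injective m hm).comp hg
  let e : Fin s ↪ Ballot m := ⟨fun t => shift m hm (g t), hinj⟩
  let w' : Ballot m → ℕ := fun b => ∑ t ∈ univ.filter (fun t => e t = b), w t
  have hw' : ∀ t, w' (e t) = w t := by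
    intro t
    have : univ.filter (fun t' => e t' = e t) = {t} := by
      ext t'
      simp
    simp only [w', this, sum_singleton]
  have key : ∀ (j : Fin k) (p c : Fin (m j)),
      ∑ b ∈ (univ.map e).filter (fun b => b j p = c), w' b =
        ∑ t ∈ univ.filter (fun t => e t j p = c), w t := by
    intro j p c
    rw [filter_map, sum_map]
    apply sum_congr rfl
    intro t _
    exact hw' t
  refine ⟨univ.map e, w', ⟨?_, ?_, ?_⟩, by simp⟩
  · exact ⟨e ⟨0, hs⟩, by simp⟩
  · intro b hb
    simp only [mem_map, mem_univ, true_and] at hb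
    obtain ⟨t, rfl⟩ := hb
    rw [hw']
    exact hw t
  · intro j p c c'
    haveI : NeZero (m j) := ⟨hm j⟩
    rw [key, key]
    have h2 : ∀ c : Fin (m j), univ.filter (fun t => e t j p = c) =
        univ.filter (fun t => g t j = c - p) := by
      intro c
      ext t
      simp only [mem_filter, mem_univ, true_and]
      change g t j + p = c ↔ _
      exact eq_sub_iff_add_eq.symm
    rw [h2, h2]
    exact hbal j _ _

theorem B_le {k : ℕ} {m : Fin k → ℕ} {s : ℕ}
    (h : ∃ (S : Finset (Ballot m)) (w : Ballot m → ℕ), IsBalanced m S w ∧ S.card = s) :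
    B m ≤ s := Nat.sInf_le h

end Q137.Ballots
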