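import Mathlib
import Pool.Agent.Q137.Ballots.Defs
import Pool.Agent.Q137.Ballots.Cyclic

/-!
Two explicit ballot systems.
-/

namespace Q137.Ballots

open Finset

def w5 : Fin 13 → ℕ := ![30, 27, 25, 22, 20, 18, 17, 13, 12, 10, 8, 5, 3]

def a5 : Fin 13 → ℕ := ![0, 1, 2, 3, 3, 4, 2, 4, 0, 1, 4, 1, 4]
def b5 : Fin 13 → ℕ := ![0, 1, 2, 3, 4, 5, 5, 3, 4, 2, 1, 0, 4]
def c5 : Fin 13 → ℕ := ![0, 1, 2, 3, 4, 5, 6, 6, 5, 4, 3, 2, 1]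

def g5 : Fin 13 → ∀ j : Fin 3, Fin ((![5, 6, 7] : Fin 3 → ℕ) j) := fun t =>
  Fin.cons (α := fun j : Fin 3 => Fin ((![5, 6, 7] : Fin 3 → ℕ) j)) (Fin.ofNat 5 (a5 t))
    (Fin.cons (α := fun j : Fin 2 => Fin ((![6, 7] : Fin 2 → ℕ) j)) (Fin.ofNat 6 (b5 t))
      (Fin.cons (α := fun j : Fin 1 => Fin ((![7] : Fin 1 → ℕ) j)) (Fin.ofNat 7 (c5 t))
        (fun j => j.elim0)))

def w7 : Fin 18 → ℕ := ![56, 55, 49, 46, 42, 39, 37, 33, 30, 26, 23, 19, 17, 14, 8, 7, 2, 1]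

def a7 : Fin 18 → ℕ := ![5, 0, 1, 2, 3, 4, 6, 4, 3, 2, 1, 6, 0, 5, 6, 6, 5, 6]
def b7 : Fin 18 → ℕ := ![0, 1, 2, 3, 4, 5, 6, 7, 7, 6, 5, 4, 3, 2, 1, 0, 4, 5]
def c7 : Fin 18 → ℕ := ![0, 1, 2, 3, 4, 5, 6, 7, 8, 8, 7, 6, 5, 4, 3, 2, 3, 1]

def g7 : Fin 18 → ∀ j : Fin 3, Fin ((![7, 8, 9] : Fin 3 → ℕ) j) := fun t =>
  Fin.cons (α := fun j : Fin 3 => Fin ((![7, 8, 9] : Fin 3 → ℕ) j)) (Fin.ofNat 7 (a7 t))
    (Fin.cons (α := fun j : Fin 2 => Fin ((![8, 9] : Fin 2 → ℕ) j)) (Fin.ofNat 8 (b7 t))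
      (Fin.cons (α := fun j : Fin 1 => Fin ((![9] : Fin 1 → ℕ) j)) (Fin.ofNat 9 (c7 t))
        (fun j => j.elim0)))

theorem system567 :
    ∃ (S : Finset (Ballot ![5, 6, 7])) (w : Ballot ![5, 6, 7] → ℕ),
      IsBalanced ![5, 6, 7] S w ∧ S.card = 13 := by
  refine exists_balanced ![5, 6, 7] (by decide) 13 (by decide) w5 (by decide) g5 ?_ ?_
  · unfold Function.Injective
    decide
  · decide

theorem system789 :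
    ∃ (S : Finset (Ballot ![7, 8, 9])) (w : Ballot ![7, 8, 9] → ℕ),
      IsBalanced ![7, 8, 9] S w ∧ S.card = 18 := by
  refine exists_balanced ![7, 8, 9] (by decide) 18 (by decide) w7 (by decide) g7 ?_ ?_
  · unfold Function.Injective
    decide
  · decide

end Q137.Ballots
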